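import Mathlib

namespace Pool.Agent.Results.MP_6afee3_an.NotFG

open Filter Topology Finset MeasureTheory

/-- convolution of two measures on a compact group, evaluated at a continuous function -/
noncomputable def conv {G : Type} [Group G] [TopologicalSpace G] [IsTopologicalGroup G]
    [CompactSpace G] (μ ν : StrongDual ℂ C(G, ℂ)) (f : C(G, ℂ)) : ℂ :=
  μ ((⟨ν, ν.continuous⟩ : C(C(G, ℂ), ℂ)).comp
    (f.comp (⟨fun p => p.1 * p.2, continuous_mul⟩ : C(G × G, G))).curry)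

noncomputable def w (S : Finset ℕ) : C(ℕ → ℤˣ, ℂ) :=
  ⟨fun x => ∏ k ∈ S, ((x k : ℤ) : ℂ), continuous_finsetProd _ fun k _ =>
    (continuous_of_discreteTopology (f := fun u : ℤˣ => ((u : ℤ) : ℂ))).comp (continuous_apply k)⟩

lemma w_ap (S : Finset ℕ) (x : ℕ → ℤˣ) : w S x = ∏ k ∈ S, ((x k : ℤ) : ℂ) := rfl

lemma w_mul (S : Finset ℕ) (x y : ℕ → ℤˣ) : w S (x * y) = w S x * w S y := by
  simp [w_ap, prod_mul_distrib]

lemma w_flip (S : Finset ℕ) (m : ℕ) : w S (Pi.mulSingle m (-1)) = if m ∈ S then -1 else 1 := by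
  rw [w_ap, ← prod_ite_eq' S m fun _ => (-1 : ℂ)]
  refine prod_congr rfl fun k _ => ?_
  by_cases h : k = m <;> simp [h]

lemma w_sq (k : ℕ) (x : ℕ → ℤˣ) : w {k} x = 1 ∨ w {k} x = -1 := by
  rcases Int.units_eq_one_or (x k) with h | h <;> simp [w_ap, h]

lemma w_norm (k : ℕ) : ‖w {k}‖ ≤ 1 :=
  (ContinuousMap.norm_le _ zero_le_one).2 fun x => by rcases w_sq k x with h | h <;> simp [h]

lemma conv_w (μ ν : StrongDual ℂ C(ℕ → ℤˣ, ℂ)) (S : Finset ℕ) :
    conv μ ν (w S) = μ (w S) * ν (w S) := by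
  rw [conv, mul_comm, ← smul_eq_mul, ← map_smul]
  congr 1
  ext x
  have : ((w S).comp (⟨fun p => p.1 * p.2, continuous_mul⟩ :
      C((ℕ → ℤˣ) × (ℕ → ℤˣ), ℕ → ℤˣ))).curry x = w S x • w S := by
    ext y; exact w_mul S x y
  simp [this, mul_comm]

lemma riesz (μ : StrongDual ℂ C(ℕ → ℤˣ, ℂ)) (hμ : ∀ S, #S ≠ 1 → μ (w S) = 0)
    (s : Finset ℕ) (a : ℕ → ℝ) :
    ‖∑ k ∈ s, (a k : ℂ) * μ (w {k})‖ ≤ ‖μ‖ * Real.exp (∑ k ∈ s, a k ^ 2) := by
  have e : ∏ k ∈ s, (1 + (Complex.I * a k) • w {k}) =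
      ∑ t ∈ s.powerset, (∏ k ∈ t, (Complex.I * a k)) • w t := by
    rw [prod_one_add]
    refine sum_congr rfl fun t _ => ?_
    ext x; simp [w_ap, prod_mul_distrib]
  have e2 : μ (∏ k ∈ s, (1 + (Complex.I * a k) • w {k})) =
      Complex.I * ∑ k ∈ s, (a k : ℂ) * μ (w {k}) := by
    rw [e, map_sum, ← sum_subset (s₁ := s.image fun k => {k}), sum_image (by simp), mul_sum]
    · simp [mul_assoc]
    · intro t ht
      obtain ⟨k, hk, rfl⟩ := mem_image.1 ht
      simpa using hk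
    · intro t ht ht'
      rw [map_smul, hμ t, smul_zero]
      intro h
      obtain ⟨k, rfl⟩ := card_eq_one.1 h
      exact ht' (mem_image.2 ⟨k, by simpa using ht, rfl⟩)
  have h := μ.le_opNorm (∏ k ∈ s, (1 + (Complex.I * a k) • w {k}))
  rw [e2, norm_mul, Complex.norm_I, one_mul] at h
  refine h.trans (mul_le_mul_of_nonneg_left ((ContinuousMap.norm_le _ (Real.exp_pos _).le).2
    fun x => ?_) (norm_nonneg _))
  rw [ContinuousMap.prod_apply, norm_prod, Real.exp_sum]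
  refine prod_le_prod (fun _ _ => norm_nonneg _) fun k _ => ?_
  refine le_trans ?_ (Real.add_one_le_exp _)
  rw [Complex.norm_eq_sqrt_sq_add_sq, Real.sqrt_le_left (by positivity)]
  rcases w_sq k x with h | h <;> simp [h] <;> nlinarith [sq_nonneg (a k), sq_nonneg (a k ^ 2)]

lemma small (c : ℕ → ℝ) (C : ℝ)
    (h : ∀ (s : Finset ℕ) (a : ℕ → ℝ), ∑ k ∈ s, a k * c k ≤ C * Real.exp (∑ k ∈ s, a k ^ 2)) :
    Tendsto c atTop (𝓝 0) := by
  refine Metric.tendsto_nhds.2 fun δ hδ => ?_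
  rw [← Nat.cofinite_eq_atTop, eventually_cofinite]
  by_contra hinf
  obtain ⟨N, hN⟩ := exists_nat_gt (max 0 (C * Real.exp 1 / δ))
  have hN0 : (0 : ℝ) < N := (le_max_left _ _).trans_lt hN
  obtain ⟨s, hs, hc⟩ := Set.Infinite.exists_subset_card_eq hinf (N ^ 2)
  have h1 := h s fun k => if 0 ≤ c k then 1 / N else -(1 / N)
  have e0 : ∑ k ∈ s, (if 0 ≤ c k then 1 / N else -(1 / N) : ℝ) ^ 2 = ∑ k ∈ s, (1 / N : ℝ) ^ 2 :=
    sum_congr rfl fun k _ => by split_ifs <;> ring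
  rw [e0, sum_const, hc] at h1
  have h2 : ∑ k ∈ s, δ / N ≤ ∑ k ∈ s, (if 0 ≤ c k then 1 / N else -(1 / N) : ℝ) * c k :=
    sum_le_sum fun k hk => by
      have h3 : δ ≤ |c k| := by simpa [Real.dist_eq] using hs hk
      have h4 : δ / N ≤ |c k| / N := by gcongr
      refine h4.trans (le_of_eq ?_)
      split_ifs with h5
      · rw [abs_of_nonneg h5]; ring
      · rw [abs_of_neg (not_le.1 h5)]; ring
  rw [sum_const, hc] at h2
  have e1 : (N ^ 2) • (1 / N : ℝ) ^ 2 = 1 := by simp; field_simp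
  have e2 : (N ^ 2) • (δ / N : ℝ) = N * δ := by simp; field_simp
  rw [e1] at h1
  have := (div_lt_iff₀ hδ).1 ((le_max_right _ _).trans_lt hN)
  linarith

lemma tend (μ : StrongDual ℂ C(ℕ → ℤˣ, ℂ)) (hμ : ∀ S, #S ≠ 1 → μ (w S) = 0) :
    Tendsto (fun k => ‖μ (w {k})‖) atTop (𝓝 0) := by
  have h1 := small (fun k => (μ (w {k})).re) ‖μ‖ fun s a =>
    le_trans (le_trans (le_of_eq (by simp)) (Complex.re_le_norm _)) (riesz μ hμ s a)
  have h2 := small (fun k => (μ (w {k})).im) ‖μ‖ fun s a =>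
    le_trans (le_trans (le_of_eq (by simp)) (Complex.im_le_norm _)) (riesz μ hμ s a)
  refine squeeze_zero (fun _ => norm_nonneg _) (fun k => Complex.norm_le_abs_re_add_abs_im _) ?_
  simpa using h1.abs.add h2.abs

lemma haar : ∃ I : StrongDual ℂ C(ℕ → ℤˣ, ℂ), ∀ k S, I (w {k} * w S) = if S = {k} then 1 else 0 := by
  borelize (ℕ → ℤˣ)
  let m : Measure (ℕ → ℤˣ) := Measure.haarMeasure ⊤
  have : IsProbabilityMeasure m := ⟨by simpa using Measure.haarMeasure_self (G := ℕ → ℤˣ) (K₀ := ⊤)⟩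
  have hi : ∀ f : C(ℕ → ℤˣ, ℂ), Integrable f m := fun f =>
    (BoundedContinuousFunction.mkOfCompact f).integrable m
  let L : C(ℕ → ℤˣ, ℂ) →ₗ[ℂ] ℂ :=
    { toFun := fun f => ∫ x, f x ∂m
      map_add' := fun f g => integral_add (hi f) (hi g)
      map_smul' := fun c f => integral_smul c f }
  refine ⟨L.mkContinuous 1 fun f => ?_, fun k S => ?_⟩
  · show ‖∫ x, f x ∂m‖ ≤ _
    simpa using norm_integral_le_of_norm_le_const (μ := m) (f := f) (C := ‖f‖)
      (Eventually.of_forall f.norm_coe_le_norm)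
  show ∫ x, w {k} x * w S x ∂m = _
  split_ifs with h
  · rw [h, integral_congr_ae (g := fun _ => 1) (Eventually.of_forall fun x => by
      rcases w_sq k x with h | h <;> simp [h])]
    simp
  · obtain ⟨j, hj⟩ : ∃ j, w {k} (Pi.mulSingle j (-1)) * w S (Pi.mulSingle j (-1)) = -1 := by
      simp only [w_flip]
      by_cases hk : k ∈ S
      · obtain ⟨j, h1, h2⟩ : ∃ j ∈ S, j ≠ k := by
          by_contra! h3
          exact h (eq_singleton_iff_unique_mem.2 ⟨hk, h3⟩)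
        exact ⟨j, by simp [h1, h2]⟩
      · exact ⟨k, by simp [hk]⟩
    have h1 := integral_mul_left_eq_self (μ := m) (fun x => w {k} x * w S x) (Pi.mulSingle j (-1))
    have h2 : ∀ x, w {k} (Pi.mulSingle j (-1) * x) * w S (Pi.mulSingle j (-1) * x) =
        -(w {k} x * w S x) := fun x => by
      rw [w_mul, w_mul]; linear_combination (w {k} x * w S x) * hj
    simp only [h2, integral_neg] at h1
    linear_combination (-1 / 2) * h1

theorem result : ∃ (G : Type) (_ : Group G) (_ : TopologicalSpace G) (_ : IsTopologicalGroup G)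
    (_ : CompactSpace G) (J : Submodule ℂ (StrongDual ℂ C(G, ℂ))), T2Space G ∧
    (∀ μ, ∀ ν ∈ J, ∀ ρ : StrongDual ℂ C(G, ℂ), (∀ f, ρ f = conv μ ν f) → ρ ∈ J) ∧
    IsClosed (StrongDual.toWeakDual '' (J : Set (StrongDual ℂ C(G, ℂ)))) ∧
    ¬ ∃ (n : ℕ) (g : Fin n → StrongDual ℂ C(G, ℂ)), (∀ i, g i ∈ J) ∧
      ∀ ρ ∈ J, ∃ ν : Fin n → StrongDual ℂ C(G, ℂ), ∀ f, ρ f = ∑ i, conv (ν i) (g i) f := by
  let J : Submodule ℂ (StrongDual ℂ C(ℕ → ℤˣ, ℂ)) :=
    { carrier := {μ | ∀ S, #S ≠ 1 → μ (w S) = 0}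
      zero_mem' := fun _ _ => rfl
      add_mem' := fun h1 h2 S hS => by simp [h1 S hS, h2 S hS]
      smul_mem' := fun c _ h S hS => by simp [h S hS] }
  refine ⟨ℕ → ℤˣ, inferInstance, inferInstance, inferInstance, inferInstance, J, inferInstance,
    fun μ ν hν ρ h S hS => by rw [h, conv_w, hν S hS, mul_zero], ?_, ?_⟩
  · have : StrongDual.toWeakDual '' (J : Set (StrongDual ℂ C(ℕ → ℤˣ, ℂ))) =
        ⋂ S, ⋂ (_ : #S ≠ 1), {μ : WeakDual ℂ C(ℕ → ℤˣ, ℂ) | μ (w S) = 0} := by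
      ext μ
      simp only [Set.mem_iInter]
      exact ⟨fun ⟨ν, hν, h⟩ => h ▸ hν, fun h => ⟨WeakDual.toStrongDual μ, h, rfl⟩⟩
    rw [this]
    exact isClosed_iInter fun S => isClosed_iInter fun _ =>
      isClosed_eq (WeakDual.eval_continuous _) continuous_const
  rintro ⟨n, g, hg, h⟩
  have h1 := tendsto_finsetSum univ fun i _ => tend (g i) (hg i)
  simp only [sum_const_zero] at h1
  obtain ⟨k, hk, hk2⟩ := extraction_forall_of_eventually (P := fun j k =>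
    ∑ i, ‖g i (w {k})‖ < (1 / 2) ^ j * (1 / 2) ^ j) fun j =>
    h1.eventually (gt_mem_nhds (by positivity))
  obtain ⟨I, hI⟩ := haar
  have hs : Summable fun j => ((1 / 2 : ℂ) ^ j) • w {k j} :=
    Summable.of_norm_bounded summable_geometric_two fun j => by
      rw [norm_smul, norm_pow]
      simpa using mul_le_of_le_one_right (by positivity : (0 : ℝ) ≤ (2 ^ j)⁻¹) (w_norm (k j))
  let ρ := I.comp (ContinuousLinearMap.mul ℂ _ (∑' j, ((1 / 2 : ℂ) ^ j) • w {k j}))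
  have hρ : ∀ S, ρ (w S) = ∑' j, (1 / 2 : ℂ) ^ j * if S = {k j} then 1 else 0 := fun S => by
    have := (I.comp ((ContinuousLinearMap.mul ℂ _).flip (w S))).map_tsum hs
    simp only [ContinuousLinearMap.comp_apply, ContinuousLinearMap.flip_apply,
      ContinuousLinearMap.mul_apply', smul_mul_assoc, map_smul, hI, smul_eq_mul] at this
    exact this
  obtain ⟨ν, hν⟩ := h ρ fun S hS => by
    rw [hρ]
    have : ∀ j, S ≠ {k j} := by rintro j rfl; simp at hS
    simp [this]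
  obtain ⟨j, hj⟩ := ((tendsto_pow_atTop_nhds_zero_of_lt_one (r := (1 / 2 : ℝ)) (by norm_num)
    (by norm_num)).const_mul (∑ i, ‖ν i‖) |>.eventually (gt_mem_nhds (by simp : _ < (1 : ℝ)))).exists
  have h2 := hν (w {k j})
  rw [hρ, tsum_eq_single j fun i hi => by simp [hk.injective.eq_iff, hi.symm]] at h2
  simp only [if_true, mul_one, conv_w] at h2
  have h3 : (1 / 2 : ℝ) ^ j ≤ (∑ i, ‖ν i‖) * ∑ i, ‖g i (w {k j})‖ := by
    have := congrArg norm h2
    rw [norm_pow] at this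
    refine le_trans (le_of_eq (by rw [← this]; simp)) ((norm_sum_le _ _).trans ?_)
    rw [mul_sum]
    refine sum_le_sum fun i _ => ?_
    rw [norm_mul]
    refine mul_le_mul_of_nonneg_right (((ν i).le_opNorm _).trans ?_) (norm_nonneg _)
    exact (mul_le_of_le_one_right (norm_nonneg _) (w_norm _)).trans
      (single_le_sum (f := fun i => ‖ν i‖) (fun _ _ => norm_nonneg _) (mem_univ i))
  have h4 : 0 ≤ ∑ i, ‖ν i‖ := sum_nonneg fun _ _ => norm_nonneg _
  have h5 : (0 : ℝ) < (1 / 2) ^ j := by positivity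
  nlinarith [mul_le_mul_of_nonneg_left (hk2 j).le h4]

end Pool.Agent.Results.MP_6afee3_an.NotFG
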